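import Pool.Agent.Helper86.SG.Defs

/-!
# Project SG: everything together (second copy of package ASM)
-/

set_option autoImplicit false

open Finset

namespace Pool.Agent.Helper15.SG

open SJ (supp IsV dot fib)
open _root_.SG

variable {n : ℕ}

lemma supp_card {k : ℕ} {v : Fin n → ℤ} (h : IsV n k v) : #(supp v) = k := h.2

lemma mem_fib {F : Finset (Fin n → ℤ)} {S : Finset (Fin n)} {v : Fin n → ℤ} :
    v ∈ fib F S ↔ v ∈ F ∧ supp v = S := by
  classical
  unfold SJ.fib
  exact Finset.mem_filter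

/-- counting by supports -/
lemma card_le_sum (_k N : ℕ) (F : Finset (Fin n → ℤ)) (𝒮 : Finset (Finset (Fin n)))
    (h1 : ∀ v ∈ F, supp v ∈ 𝒮) (h2 : ∀ S ∈ 𝒮, #(fib F S) ≤ N) : #F ≤ N * #𝒮 := by
  classical
  have h := Finset.card_eq_sum_card_fiberwise (f := fun v : Fin n → ℤ => supp v) (s := F) (t := 𝒮)
    (fun v hv => h1 v hv)
  rw [h]
  calc ∑ S ∈ 𝒮, #{v ∈ F | supp v = S} ≤ ∑ _S ∈ 𝒮, N := by
        refine Finset.sum_le_sum fun S hS => ?_
        refine le_trans (Finset.card_le_card ?_) (h2 S hS)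
        intro v hv
        rw [Finset.mem_filter] at hv
        exact mem_fib.2 hv
    _ = N * #𝒮 := by rw [Finset.sum_const, smul_eq_mul, mul_comm]

lemma indJ_mono {k d : ℕ} {F G : Finset (Fin n → ℤ)} (h : IndJ n k d F) (hG : G ⊆ F) :
    IndJ n k d G :=
  ⟨fun v hv => h.1 v (hG hv), fun u hu v hv => h.2 u (hG hu) v (hG hv)⟩

/-- the construction for `T` = everything -/
lemma small (hCON : CONStm) (k d : ℕ) (hk : 2 * d + 3 ≤ k) (F : Finset (Fin n → ℤ))
    (hF : #F < 2 * BB (k - 1) d * n.choose k) : ∃ F', IndK n k d F' ∧ #F ≤ #F' := by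
  classical
  obtain ⟨F', h1, h2⟩ := hCON n k d hk univ (fun _ => 1) (fun _ => Or.inl rfl) ∅
    ⟨fun v hv => absurd hv (Finset.notMem_empty v), fun u hu => absurd hu (Finset.notMem_empty u)⟩
    (fun v hv => absurd hv (Finset.notMem_empty v))
  refine ⟨F', h1, ?_⟩
  have h3 : (powersetCard k (univ : Finset (Fin n))).filter (fun S => ¬ Disjoint S univ)
      = powersetCard k univ := by
    refine Finset.filter_true_of_mem fun S hS => ?_
    have hc := (Finset.mem_powersetCard.1 hS).2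
    have hne : S.Nonempty := Finset.card_pos.1 (by omega)
    obtain ⟨x, hx⟩ := hne
    exact Finset.not_disjoint_iff.2 ⟨x, hx, Finset.mem_univ x⟩
  rw [h3, Finset.card_powersetCard, Finset.card_univ, Fintype.card_fin] at h2
  omega

theorem asm (hSRC : SRCStm) (hRUL : RULStm) (hBOUND : BOUNDStm) (hTOP : TOPStm)
    (hCENA : CENAStm) (hCENB : CENBStm) (hCENC : CENCStm) (hCNT : CNTStm) (hCON : CONStm) :
    GOALStm := by
  classical
  intro k d hk
  obtain ⟨C, hC⟩ := hBOUND k d hk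
  refine ⟨C * k + 2 * k, fun n hn F hF => ?_⟩
  by_cases hsm : #F < 2 * BB (k - 1) d * n.choose k
  · exact small hCON k d hk F hsm
  rw [not_lt] at hsm
  have hEX := hC n F hF hsm
  -- the set `V`
  set U : Finset (Fin n) := (EX k d F).biUnion id with hU
  have hEXk : ∀ S ∈ EX k d F, #S = k := by
    intro S hS
    unfold EX at hS
    rcases Finset.mem_union.1 hS with h | h
    · unfold HH at h
      exact (Finset.mem_powersetCard.1 (Finset.mem_filter.1 h).1).2
    · unfold LL at h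
      exact (Finset.mem_powersetCard.1 (Finset.mem_filter.1 h).1).2
  have hUc : #U ≤ C * k := by
    calc #U ≤ ∑ S ∈ EX k d F, #(id S) := Finset.card_biUnion_le
      _ ≤ ∑ _S ∈ EX k d F, k := Finset.sum_le_sum fun S hS => (hEXk S hS).le
      _ = #(EX k d F) * k := by rw [Finset.sum_const, smul_eq_mul]
      _ ≤ C * k := Nat.mul_le_mul_right k hEX
  set V : Finset (Fin n) := Uᶜ with hV
  have hVc : 2 * k ≤ #V := by
    have := Finset.card_compl U
    rw [Fintype.card_fin] at this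
    rw [hV, this]
    omega
  have hVEX : ∀ S, ¬ Disjoint S V → S ∉ EX k d F := by
    intro S hSV hS
    apply hSV
    rw [Finset.disjoint_left]
    intro x hx hxV
    rw [hV, Finset.mem_compl] at hxV
    exact hxV (Finset.mem_biUnion.2 ⟨S, hS, hx⟩)
  have hEXHH : ∀ S, S ∉ EX k d F → S ∉ HH k d F := by
    intro S hS h
    apply hS
    unfold EX
    exact Finset.mem_union_left _ h
  -- the functions `f`, `c`
  have hstr : ∀ S : Finset (Fin n), ∃ (f : Fin n) (c : Fin n → ℤ),
      #S = k → ¬ Disjoint S V → Str k d F S f c := by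
    intro S
    by_cases h : #S = k ∧ ¬ Disjoint S V
    · obtain ⟨f, c, hfc⟩ := (hSRC n k d F hk hF.1 S h.1).2 (hVEX S h.2)
      exact ⟨f, c, fun _ _ => hfc⟩
    · have hVne : V.Nonempty := Finset.card_pos.1 (by omega)
      obtain ⟨x, _⟩ := hVne
      exact ⟨x, fun _ => 1, fun h1 h2 => absurd ⟨h1, h2⟩ h⟩
  choose f c hfc using hstr
  obtain ⟨T, v₁, hv₁, hTV, hT1, hT2⟩ := hTOP n k (by omega) V f (by omega)
    (fun S h1 h2 => (hfc S h1 h2).1)
    (fun S S' h1 h2 h3 h4 h5 h6 h7 =>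
      (hRUL n k d F hk hF.1 S S' h1 h2 (hEXHH S (hVEX S h3)) (by omega) (f S) (f S') (c S) (c S')
        (hfc S h1 h3) (hfc S' h2 h4)).1 h6 h7)
  have hmeet : ∀ S : Finset (Fin n), v₁ ∈ S → ¬ Disjoint S V :=
    fun S h => Finset.not_disjoint_iff.2 ⟨v₁, h, hv₁⟩
  obtain ⟨c₀, hc₀, hstr₀⟩ := hCENA n k d F hk hF.1 T v₁ (fun S h1 h2 h3 => by
    refine ⟨hEXHH S (hVEX S (hmeet S h3)), c S, ?_⟩
    have := hfc S h1 (hmeet S h3)
    rwa [hT2 S h1 h2 h3] at this)
  have hB := hCENB n k d F hk hF T V v₁ hv₁ hTV hVc c₀ hc₀ hstr₀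
  have hCc := hCENC n k d F hk hF T V hTV hVc (fun S h1 h2 h3 =>
    ⟨f S, hT1 S h1 h2 h3, c S, hfc S h1 h2⟩)
  -- the three parts
  set F₁ : Finset (Fin n → ℤ) := F.filter (fun v => Disjoint (supp v) T ∧
    #((supp v).filter (fun i => v i ≠ c₀ i)) = d + 1) with hF₁
  obtain ⟨F', hF', hcount⟩ := hCON n k d hk T c₀ hc₀ F₁ (indJ_mono hF (Finset.filter_subset _ _))
    (fun v hv => (Finset.mem_filter.1 hv).2)
  refine ⟨F', hF', le_trans ?_ hcount⟩
  set FT : Finset (Fin n → ℤ) := F.filter (fun v => ¬ Disjoint (supp v) T) with hFT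
  set F₀ : Finset (Fin n → ℤ) := F.filter (fun v => Disjoint (supp v) T ∧
    #((supp v).filter (fun i => v i ≠ c₀ i)) ≤ d) with hF₀
  have hcover : F ⊆ FT ∪ F₀ ∪ F₁ := by
    intro v hv
    by_cases hd : Disjoint (supp v) T
    · have h1 := hB v hv hd
      rcases Nat.lt_or_ge (#((supp v).filter (fun i => v i ≠ c₀ i))) (d + 1) with h | h
      · exact Finset.mem_union_left _ (Finset.mem_union_right _
          (Finset.mem_filter.2 ⟨hv, hd, by omega⟩))
      · exact Finset.mem_union_right _ (Finset.mem_filter.2 ⟨hv, hd, by omega⟩)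
    · exact Finset.mem_union_left _ (Finset.mem_union_left _ (Finset.mem_filter.2 ⟨hv, hd⟩))
  have hcT : #FT ≤ 2 * BB (k - 1) d * #((powersetCard k (univ : Finset (Fin n))).filter
      (fun S => ¬ Disjoint S T)) := by
    refine card_le_sum k _ FT _ (fun v hv => ?_) (fun S hS => ?_)
    · rw [hFT, Finset.mem_filter] at hv
      exact Finset.mem_filter.2
        ⟨Finset.mem_powersetCard.2 ⟨Finset.subset_univ _, supp_card (hF.1 v hv.1)⟩, hv.2⟩
    · rw [Finset.mem_filter, Finset.mem_powersetCard] at hS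
      refine le_trans (Finset.card_le_card ?_) (hCc S hS.1.2 hS.2)
      intro v hv
      rw [mem_fib] at hv ⊢
      exact ⟨(Finset.mem_filter.1 hv.1).1, hv.2⟩
  have hc0 : #F₀ ≤ BB k d * #((powersetCard k (univ : Finset (Fin n))).filter
      (fun S => Disjoint S T)) := by
    refine card_le_sum k _ F₀ _ (fun v hv => ?_) (fun S hS => ?_)
    · rw [hF₀, Finset.mem_filter] at hv
      exact Finset.mem_filter.2
        ⟨Finset.mem_powersetCard.2 ⟨Finset.subset_univ _, supp_card (hF.1 v hv.1)⟩, hv.2.1⟩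
    · rw [Finset.mem_filter, Finset.mem_powersetCard] at hS
      obtain ⟨G, hG, hGc⟩ := hCNT n d S ∅ c₀ hc₀ (Finset.empty_subset S)
      rw [Finset.sdiff_empty, Finset.card_empty, pow_zero, one_mul, hS.1.2] at hGc
      rw [← hGc]
      refine Finset.card_le_card ?_
      intro v hv
      rw [mem_fib] at hv
      have h1 := Finset.mem_filter.1 hv.1
      rw [hG, Finset.sdiff_empty, hS.1.2]
      refine ⟨hF.1 v h1.1, hv.2, ?_⟩
      rw [← hv.2]
      exact h1.2.2
  calc #F ≤ #(FT ∪ F₀ ∪ F₁) := Finset.card_le_card hcover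
    _ ≤ #(FT ∪ F₀) + #F₁ := Finset.card_union_le _ _
    _ ≤ #FT + #F₀ + #F₁ := Nat.add_le_add_right (Finset.card_union_le _ _) _
    _ ≤ _ := Nat.add_le_add_right (Nat.add_le_add hcT hc0) _

/-- package ASM -/
theorem asmStm : ASMStm := fun _ h2 h3 h4 h5 h6 h7 h8 h9 h10 => asm h2 h3 h4 h5 h6 h7 h8 h9 h10

end Pool.Agent.Helper15.SG
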